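import Pool.Agent.helper48.AN.SpecD

/-!
# DB: `Phi` is a ring homomorphism
-/

namespace AN

open scoped Classical
open MvPowerSeries (constantCoeff coeff)

noncomputable section

variable {k : Type} [Field k] {N : ℕ}

/-- Hasse derivative of the coefficients. -/
def DB_H (j : ℕ) (x : KK k N) : KK k N := fun α => hD j (coeff α x)

theorem DB_H_coeff (j : ℕ) (x : KK k N) (α : Fin N →₀ ℕ) :
    coeff α (DB_H j x) = hD j (coeff α x) := rfl

/-- Truncated Taylor formula. -/
def DB_P (h : Fin N → LS k) (m : ℕ) (x : KK k N) : KK k N :=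
  ∑ j ∈ Finset.range m, DB_H j x * del h ^ j

theorem DB_deg {α : Fin N →₀ ℕ} {q : (Fin N →₀ ℕ) × (Fin N →₀ ℕ)}
    (hq : q ∈ Finset.HasAntidiagonal.antidiagonal α) : q.1.degree + q.2.degree = α.degree := by
  rw [← Finset.HasAntidiagonal.mem_antidiagonal.1 hq, map_add]

theorem DB_del0 (h : Fin N → LS k) : coeff (0 : Fin N →₀ ℕ) (del h) = 0 := by
  unfold del
  rw [map_sum]
  refine Finset.sum_eq_zero fun i _ => ?_
  rw [MvPowerSeries.coeff_zero_eq_constantCoeff_apply, map_mul, MvPowerSeries.constantCoeff_X,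
    zero_mul]

theorem DB_pow (h : Fin N → LS k) (j : ℕ) :
    ∀ α : Fin N →₀ ℕ, α.degree < j → coeff α (del h ^ j) = 0 := by
  induction j with
  | zero => intro α hα; exact absurd hα (Nat.not_lt_zero _)
  | succ j ih =>
    intro α hα
    rw [pow_succ, MvPowerSeries.coeff_mul]
    refine Finset.sum_eq_zero fun q hq => ?_
    have h1 := DB_deg hq
    by_cases h2 : q.1.degree < j
    · rw [ih q.1 h2, zero_mul]
    · have h3 : q.2.degree = 0 := by omega
      have h4 : q.2 = 0 := (Finsupp.degree_eq_zero_iff _).1 h3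
      rw [h4, DB_del0, mul_zero]

theorem DB_zero (h : Fin N → LS k) (z : KK k N) (j : ℕ) (α : Fin N →₀ ℕ) (hα : α.degree < j) :
    coeff α (z * del h ^ j) = 0 := by
  rw [MvPowerSeries.coeff_mul]
  refine Finset.sum_eq_zero fun q hq => ?_
  have h1 := DB_deg hq
  rw [DB_pow h j q.2 (by omega), mul_zero]

theorem DB_key (h : Fin N → LS k) (x : KK k N) (m : ℕ) (α : Fin N →₀ ℕ) (hα : α.degree < m) :
    coeff α (Phi h x) = coeff α (DB_P h m x) := by
  have e : coeff α (Phi h x) = ∑ q ∈ Finset.HasAntidiagonal.antidiagonal α,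
      ∑ j ∈ Finset.range (q.2.degree + 1), hD j (coeff q.1 x) * coeff q.2 (del h ^ j) := rfl
  rw [e]
  unfold DB_P
  rw [map_sum]
  have e2 : ∀ j ∈ Finset.range m, coeff α (DB_H j x * del h ^ j) =
      ∑ q ∈ Finset.HasAntidiagonal.antidiagonal α, hD j (coeff q.1 x) * coeff q.2 (del h ^ j) := by
    intro j _
    rw [MvPowerSeries.coeff_mul]
    rfl
  rw [Finset.sum_congr rfl e2, Finset.sum_comm]
  refine Finset.sum_congr rfl fun q hq => ?_
  have h1 := DB_deg hq
  refine Finset.sum_subset ?_ ?_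
  · intro j hj
    rw [Finset.mem_range] at hj ⊢
    omega
  · intro j _ hj
    rw [Finset.mem_range] at hj
    rw [DB_pow h j q.2 (by omega), mul_zero]

theorem DB_mul_congr {x x' y y' : KK k N} {m : ℕ}
    (hx : ∀ α : Fin N →₀ ℕ, α.degree < m → coeff α x = coeff α x')
    (hy : ∀ α : Fin N →₀ ℕ, α.degree < m → coeff α y = coeff α y') :
    ∀ α : Fin N →₀ ℕ, α.degree < m → coeff α (x * y) = coeff α (x' * y') := by
  intro α hα
  rw [MvPowerSeries.coeff_mul, MvPowerSeries.coeff_mul]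
  refine Finset.sum_congr rfl fun q hq => ?_
  have h1 := DB_deg hq
  rw [hx q.1 (by omega), hy q.2 (by omega)]

theorem DB_H_add (hDA : DA_stmt) (j : ℕ) (x y : KK k N) :
    DB_H j (x + y) = DB_H j x + DB_H j y := by
  apply MvPowerSeries.ext
  intro α
  rw [map_add, DB_H_coeff, DB_H_coeff, DB_H_coeff, map_add]
  exact (hDA (k)).2.1 j _ _

theorem DB_hD_zero (hDA : DA_stmt) (j : ℕ) : hD j (0 : LS k) = 0 := by
  have h1 := (hDA k).2.1 j 0 0
  rw [add_zero] at h1
  exact (left_eq_add.1 h1)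

theorem DB_hD_sum (hDA : DA_stmt) (j : ℕ) {ι : Type} (s : Finset ι) (f : ι → LS k) :
    hD j (∑ i ∈ s, f i) = ∑ i ∈ s, hD j (f i) := by
  induction s using Finset.induction_on with
  | empty => rw [Finset.sum_empty, Finset.sum_empty, DB_hD_zero hDA]
  | insert a s ha ih =>
    rw [Finset.sum_insert ha, Finset.sum_insert ha, (hDA k).2.1, ih]

theorem DB_H_mul (hDA : DA_stmt) (j : ℕ) (x y : KK k N) :
    DB_H j (x * y) = ∑ q ∈ Finset.HasAntidiagonal.antidiagonal j, DB_H q.1 x * DB_H q.2 y := by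
  apply MvPowerSeries.ext
  intro α
  rw [map_sum, DB_H_coeff, MvPowerSeries.coeff_mul, DB_hD_sum hDA]
  have e1 : ∀ q ∈ Finset.HasAntidiagonal.antidiagonal j, coeff α (DB_H q.1 x * DB_H q.2 y) =
      ∑ p ∈ Finset.HasAntidiagonal.antidiagonal α,
        hD q.1 (coeff p.1 x) * hD q.2 (coeff p.2 y) := by
    intro q _
    rw [MvPowerSeries.coeff_mul]
    rfl
  rw [Finset.sum_congr rfl e1, Finset.sum_comm]
  refine Finset.sum_congr rfl fun p _ => ?_
  exact (hDA k).2.2.2.1 j _ _

theorem DB_H_cB (hDA : DA_stmt) (j : ℕ) (b : BB k N) (x : KK k N) :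
    DB_H j (cB b * x) = cB b * DB_H j x := by
  apply MvPowerSeries.ext
  intro α
  rw [DB_H_coeff, MvPowerSeries.coeff_mul, DB_hD_sum hDA, MvPowerSeries.coeff_mul]
  refine Finset.sum_congr rfl fun p _ => ?_
  exact (hDA k).2.2.1 j _ _

theorem DB_hD_one {j : ℕ} (hj : 0 < j) : hD j (1 : LS k) = 0 := by
  apply LS.ext
  intro n
  have e : cf (hD j (1 : LS k)) n =
      ((Ring.choose (n + j) j : ℤ) : k) * cf (1 : LS k) (n + j) := rfl
  rw [e, cf_one, cf_zero]
  by_cases h : n + j = 0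
  · rw [h, Ring.choose_zero_pos ℤ hj, Int.cast_zero, zero_mul]
  · rw [if_neg h, mul_zero]

theorem DB_H_one {j : ℕ} (hDA : DA_stmt) (hj : 0 < j) : DB_H j (1 : KK k N) = 0 := by
  apply MvPowerSeries.ext
  intro α
  rw [DB_H_coeff, MvPowerSeries.coeff_one, map_zero]
  split_ifs
  · exact DB_hD_one hj
  · exact DB_hD_zero hDA j

theorem DB_H_one0 (hDA : DA_stmt) (x : KK k N) : DB_H 0 x = x := by
  apply MvPowerSeries.ext
  intro α
  rw [DB_H_coeff]
  exact (hDA k).1 _

theorem DB_P_mul (hDA : DA_stmt) (h : Fin N → LS k) (m : ℕ) (x y : KK k N)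
    (α : Fin N →₀ ℕ) (hα : α.degree < m) :
    coeff α (DB_P h m (x * y)) = coeff α (DB_P h m x * DB_P h m y) := by
  have e1 : coeff α (DB_P h m (x * y)) = ∑ j ∈ Finset.range m,
      ∑ q ∈ Finset.HasAntidiagonal.antidiagonal j,
        coeff α (DB_H q.1 x * DB_H q.2 y * del h ^ (q.1 + q.2)) := by
    unfold DB_P
    rw [map_sum]
    refine Finset.sum_congr rfl fun j _ => ?_
    rw [DB_H_mul hDA, Finset.sum_mul, map_sum]
    refine Finset.sum_congr rfl fun q hq => ?_
    rw [Finset.HasAntidiagonal.mem_antidiagonal.1 hq]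
  have e2 : coeff α (DB_P h m x * DB_P h m y) = ∑ q ∈ Finset.range m ×ˢ Finset.range m,
      coeff α (DB_H q.1 x * DB_H q.2 y * del h ^ (q.1 + q.2)) := by
    unfold DB_P
    rw [Finset.sum_mul_sum, map_sum, Finset.sum_product]
    refine Finset.sum_congr rfl fun a _ => ?_
    rw [map_sum]
    refine Finset.sum_congr rfl fun b _ => ?_
    refine congrArg (coeff α) ?_
    rw [pow_add, mul_mul_mul_comm]
  have e3 : ∑ q ∈ Finset.range m ×ˢ Finset.range m,
      coeff α (DB_H q.1 x * DB_H q.2 y * del h ^ (q.1 + q.2)) =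
      ∑ q ∈ (Finset.range m ×ˢ Finset.range m).filter (fun q => q.1 + q.2 < m),
      coeff α (DB_H q.1 x * DB_H q.2 y * del h ^ (q.1 + q.2)) := by
    rw [Finset.sum_filter]
    refine Finset.sum_congr rfl fun q _ => ?_
    split_ifs with hq
    · rfl
    · exact DB_zero h _ _ α (by omega)
  rw [e1, e2, e3]
  rw [← Finset.sum_fiberwise_of_maps_to (s := (Finset.range m ×ˢ Finset.range m).filter
    (fun q => q.1 + q.2 < m)) (t := Finset.range m) (g := fun q => q.1 + q.2)
    (fun q hq => Finset.mem_range.2 (Finset.mem_filter.1 hq).2)]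
  refine Finset.sum_congr rfl fun j hj => ?_
  rw [Finset.mem_range] at hj
  refine Finset.sum_congr ?_ fun _ _ => rfl
  ext ⟨a, b⟩
  simp only [Finset.HasAntidiagonal.mem_antidiagonal, Finset.mem_filter, Finset.mem_product, Finset.mem_range]
  omega

theorem DB (hDA : DA_stmt) : DB_stmt := by
  intro k _ N h
  refine ⟨?_, ?_, ?_, ?_, fun α j => DB_pow h j α⟩
  · apply MvPowerSeries.ext
    intro α
    rw [DB_key h 1 (α.degree + 1) α (Nat.lt_succ_self _)]
    unfold DB_P
    rw [Finset.sum_range_succ', Finset.sum_eq_zero, zero_add, DB_H_one0 hDA, pow_zero, mul_one]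
    intro j _
    rw [DB_H_one hDA (Nat.succ_pos j), zero_mul]
  · intro x y
    apply MvPowerSeries.ext
    intro α
    rw [map_add, DB_key h _ (α.degree + 1) α (Nat.lt_succ_self _),
      DB_key h _ (α.degree + 1) α (Nat.lt_succ_self _),
      DB_key h _ (α.degree + 1) α (Nat.lt_succ_self _), ← map_add]
    refine congrArg (coeff α) ?_
    unfold DB_P
    rw [← Finset.sum_add_distrib]
    refine Finset.sum_congr rfl fun j _ => ?_
    rw [DB_H_add hDA, add_mul]
  · intro x y
    apply MvPowerSeries.ext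
    intro α
    rw [DB_key h _ (α.degree + 1) α (Nat.lt_succ_self _), DB_P_mul hDA h _ x y α
      (Nat.lt_succ_self _)]
    exact (DB_mul_congr (fun β hβ => DB_key h x _ β hβ) (fun β hβ => DB_key h y _ β hβ) α
      (Nat.lt_succ_self _)).symm
  · intro b x
    apply MvPowerSeries.ext
    intro α
    rw [DB_key h _ (α.degree + 1) α (Nat.lt_succ_self _)]
    have e : DB_P h (α.degree + 1) (cB b * x) = cB b * DB_P h (α.degree + 1) x := by
      unfold DB_P
      rw [Finset.mul_sum]
      refine Finset.sum_congr rfl fun j _ => ?_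
      rw [DB_H_cB hDA, mul_assoc]
    rw [e]
    exact (DB_mul_congr (fun β _ => rfl) (fun β hβ => DB_key h x _ β hβ) α
      (Nat.lt_succ_self _)).symm

end

end AN
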