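import Pool.Agent.helper48.AN.SpecD

/-!
# DK: bounded generation of the differentials
-/

namespace AN

open scoped Classical

noncomputable section

/-- The generators with bounded pole orders. -/
def DK_S {k : Type} [Field k] {g : ℕ} (γ : Fin g → ℕ) (a : ℕ → LS k) (c M : ℕ) : Set (LS k) :=
  {x : LS k | ∃ i j : ℕ, c ≤ i ∧ c ≤ j ∧ i + j + 1 ≤ M ∧
      ∃ f ∈ AA γ a, f ∈ GE k (-(i : ℤ)) ∧ ∃ h ∈ AA γ a, h ∈ GE k (-(j : ℤ)) ∧ x = f * dd h}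

theorem DK_S_mono {k : Type} [Field k] {g : ℕ} (γ : Fin g → ℕ) (a : ℕ → LS k) (c : ℕ) {M M' : ℕ}
    (h : M ≤ M') : DK_S γ a c M ⊆ DK_S γ a c M' := by
  rintro x ⟨i, j, h1, h2, h3, h4⟩
  exact ⟨i, j, h1, h2, h3.trans h, h4⟩

theorem DK_span_mono {k : Type} [Field k] {g : ℕ} (γ : Fin g → ℕ) (a : ℕ → LS k) (c : ℕ)
    {M M' : ℕ} (h : M ≤ M') {x : LS k} (hx : x ∈ Submodule.span k (DK_S γ a c M)) :
    x ∈ Submodule.span k (DK_S γ a c M') :=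
  Submodule.span_mono (DK_S_mono γ a c h) hx

theorem DK_lb {k : Type} [Field k] (f : LS k) (c : ℕ) : ∃ i : ℕ, c ≤ i ∧ f ∈ GE k (-(i : ℤ)) := by
  obtain ⟨N, hN⟩ := exists_lb_nat f
  refine ⟨max N c, le_max_right _ _, fun n hn => hN n ?_⟩
  have := le_max_left N c
  omega

/-- Every differential is in the span for large `M`. -/
theorem DK_ev {k : Type} [Field k] {g : ℕ} (γ : Fin g → ℕ) (a : ℕ → LS k) (c : ℕ) (ω : LS k)
    (hω : ω ∈ OmA γ a) : ∃ M : ℕ, ω ∈ Submodule.span k (DK_S γ a c M) := by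
  unfold OmA at hω
  induction hω using Submodule.span_induction with
  | mem x hx =>
    obtain ⟨f, hf, h, hh, rfl⟩ := hx
    obtain ⟨i, hi, hfi⟩ := DK_lb f c
    obtain ⟨j, hj, hhj⟩ := DK_lb h c
    exact ⟨i + j + 1, Submodule.subset_span ⟨i, j, hi, hj, le_rfl, f, hf, hfi, h, hh, hhj, rfl⟩⟩
  | zero => exact ⟨0, Submodule.zero_mem _⟩
  | add x y _ _ hx hy =>
    obtain ⟨M, hM⟩ := hx
    obtain ⟨M', hM'⟩ := hy
    exact ⟨max M M', Submodule.add_mem _ (DK_span_mono γ a c (le_max_left _ _) hM)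
      (DK_span_mono γ a c (le_max_right _ _) hM')⟩
  | smul r x _ hx =>
    obtain ⟨M, hM⟩ := hx
    exact ⟨M, Submodule.smul_mem _ _ hM⟩

theorem DK_gap {g : ℕ} (γ : Fin g → ℕ) : ∃ c₀ : ℕ, ∀ r, c₀ ≤ r → ¬ Gp γ r := by
  refine ⟨(∑ i, γ i) + 1, ?_⟩
  rintro r hr ⟨i, rfl⟩
  have := Finset.single_le_sum (f := γ) (fun i _ => Nat.zero_le _) (Finset.mem_univ i)
  omega

theorem DK_GE {k : Type} [Field k] {g : ℕ} {γ : Fin g → ℕ} {a : ℕ → LS k} (h : IsK γ a) {c₀ : ℕ}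
    (h0 : ∀ r, c₀ ≤ r → ¬ Gp γ r) {r : ℕ} (hr : c₀ ≤ r) : a r ∈ GE k (-(r : ℤ)) := by
  intro n hn
  obtain ⟨m, hm⟩ : ∃ m : ℕ, n = -(m : ℤ) := ⟨(-n).toNat, by omega⟩
  subst hm
  rw [h.coef r m (h0 r hr) (h0 m (by omega)), if_neg (by omega)]

theorem DK (hTB : TB_stmt) : DK_stmt := by
  intro p _ k _ _ g γ a h c
  obtain ⟨c₀, h0⟩ := DK_gap γ
  have hp : 2 ≤ p := (Fact.out : p.Prime).two_le
  obtain ⟨c₁, hc₁⟩ : ∃ c₁, c₁ = max c c₀ := ⟨_, rfl⟩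
  have hcc : c ≤ c₁ := hc₁ ▸ le_max_left _ _
  have hc0 : c₀ ≤ c₁ := hc₁ ▸ le_max_right _ _
  obtain ⟨n₁, hn₁⟩ : ∃ n₁, n₁ = p * c₁ + 1 := ⟨_, rfl⟩
  have hn1 : c₁ ≤ n₁ := by nlinarith
  have hnk : (n₁ : k) ≠ 0 := by
    rw [hn₁]
    push_cast
    rw [CharP.cast_eq_zero k p]
    simp
  -- `b = a n₁`
  have hb : a n₁ ∈ GE k (-(n₁ : ℤ)) := DK_GE h h0 (hc0.trans hn1)
  have hbA : a n₁ ∈ AA γ a := Submodule.subset_span ⟨n₁, h0 _ (hc0.trans hn1), rfl⟩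
  have hdb : dd (a n₁) ∈ GE k (-(n₁ : ℤ) - 1) := dd_mem_GE hb
  have hdc : cf (dd (a n₁)) (-(n₁ : ℤ) - 1) = -(n₁ : k) := by
    rw [cf_dd]
    have e : -(n₁ : ℤ) - 1 + 1 = -(n₁ : ℤ) := by ring
    rw [e, h.coef n₁ n₁ (h0 _ (hc0.trans hn1)) (h0 _ (hc0.trans hn1)), if_pos rfl]
    push_cast
    ring
  -- finite part
  obtain ⟨M₁, hM₁⟩ : ∃ M₁, M₁ = c₁ + n₁ + 1 := ⟨_, rfl⟩
  have hfin := (hTB k g γ a h).1 (-(M₁ : ℤ))
  obtain ⟨s, hs⟩ := (Module.Finite.iff_fg.1 hfin : (OmA γ a ⊓ GE k (-(M₁ : ℤ))).FG)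
  have hsO : ∀ x ∈ s, ∃ M : ℕ, x ∈ Submodule.span k (DK_S γ a c M) := by
    intro x hx
    have : x ∈ OmA γ a ⊓ GE k (-(M₁ : ℤ)) := by
      rw [← hs]
      exact Submodule.subset_span hx
    exact DK_ev γ a c x this.1
  choose! F hF using hsO
  obtain ⟨M₀, hM₀⟩ : ∃ M₀, M₀ = s.sup F := ⟨_, rfl⟩
  have hbase : ∀ ω ∈ OmA γ a, ω ∈ GE k (-(M₁ : ℤ)) → ω ∈ Submodule.span k (DK_S γ a c M₀) := by
    intro ω h1 h2
    have h3 : ω ∈ OmA γ a ⊓ GE k (-(M₁ : ℤ)) := ⟨h1, h2⟩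
    rw [← hs] at h3
    refine Submodule.span_le.2 ?_ h3
    intro x hx
    refine DK_span_mono γ a c ?_ (hF x hx)
    rw [hM₀]
    exact Finset.le_sup (f := F) hx
  have hind : ∀ m : ℕ, M₁ ≤ m → ∀ ω ∈ OmA γ a, ω ∈ GE k (-(m : ℤ)) →
      ω ∈ Submodule.span k (DK_S γ a c (max m M₀)) := by
    intro m hm
    induction m, hm using Nat.le_induction with
    | base =>
      intro ω h1 h2
      exact DK_span_mono γ a c (le_max_right _ _) (hbase ω h1 h2)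
    | succ m hm ih =>
      intro ω h1 h2
      -- `r = m - n₁`
      obtain ⟨r, hr⟩ : ∃ r, r + n₁ = m := ⟨m - n₁, by omega⟩
      have hrc : c₁ ≤ r := by omega
      have har : a r ∈ GE k (-(r : ℤ)) := DK_GE h h0 (hc0.trans hrc)
      have harA : a r ∈ AA γ a := Submodule.subset_span ⟨r, h0 _ (hc0.trans hrc), rfl⟩
      have hη : a r * dd (a n₁) ∈ GE k (-(r : ℤ) + (-(n₁ : ℤ) - 1)) := GE_mul har hdb
      have hηc : cf (a r * dd (a n₁)) (-(r : ℤ) + (-(n₁ : ℤ) - 1)) = -(n₁ : k) := by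
        rw [cf_mul_lead har hdb, hdc, h.coef r r (h0 _ (hc0.trans hrc)) (h0 _ (hc0.trans hrc)),
          if_pos rfl, one_mul]
      have hηO : a r * dd (a n₁) ∈ OmA γ a :=
        Submodule.subset_span ⟨a r, harA, a n₁, hbA, rfl⟩
      have em : (-(r : ℤ) + (-(n₁ : ℤ) - 1)) = -((m + 1 : ℕ) : ℤ) := by
        push_cast
        omega
      rw [em] at hη hηc
      obtain ⟨t, ht⟩ : ∃ t : k, t = cf ω (-((m + 1 : ℕ) : ℤ)) / (-(n₁ : k)) := ⟨_, rfl⟩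
      have htn : t * (-(n₁ : k)) = cf ω (-((m + 1 : ℕ) : ℤ)) := by
        rw [ht]
        exact div_mul_cancel₀ _ (neg_ne_zero.2 hnk)
      have h3 : ω - t • (a r * dd (a n₁)) ∈ OmA γ a :=
        Submodule.sub_mem _ h1 (Submodule.smul_mem _ _ hηO)
      have h4 : ω - t • (a r * dd (a n₁)) ∈ GE k (-(m : ℤ)) := by
        intro n hn
        rw [cf_sub, cf_smul]
        by_cases hnm : n = -((m + 1 : ℕ) : ℤ)
        · subst hnm
          rw [hηc, htn, sub_self]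
        · have hlt : n < -((m + 1 : ℕ) : ℤ) := by
            push_cast at hnm ⊢
            omega
          rw [h2 n hlt, hη n hlt, mul_zero, sub_zero]
      have h5 := ih _ h3 h4
      have h6 : ω = (ω - t • (a r * dd (a n₁))) + t • (a r * dd (a n₁)) := by
        rw [sub_add_cancel]
      rw [h6]
      refine Submodule.add_mem _ (DK_span_mono γ a c ?_ h5) (Submodule.smul_mem _ _ ?_)
      · exact max_le_max (Nat.le_succ m) le_rfl
      · refine Submodule.subset_span (DK_S_mono γ a c (le_max_left (m + 1) M₀) ?_)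
        exact ⟨r, n₁, by omega, by omega, by omega, a r, harA, har, a n₁, hbA, hb, rfl⟩
  refine ⟨max M₀ M₁, fun M hM ω h1 h2 => ?_⟩
  have h3 := hind M ((le_max_right _ _).trans hM) ω h1 h2
  rwa [max_eq_left ((le_max_left _ _).trans hM)] at h3

end

end AN
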